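import Pool.Agent.Helper73.RT.Defs
import Pool.Agent.Helper23.RT.ChooseMul
import Pool.Agent.Helper37.RT.PairsOf
import Pool.Agent.Helper87.RT.DisjOcc

/-!
# Project RT: edge-disjoint `4`-cliques with a marked pair
-/

set_option autoImplicit false

open Finset

namespace Pool.Agent.Helper73.RT

/-- the marked sets -/
def markC {N : ℕ} (S : Finset (Sym2 (Fin N))) : Finset (Finset (Fin N) × Sym2 (Fin N)) :=
  (Finset.univ.filter fun i => i.1.card = 4 ∧ i.2 ∈ pairsOf i.1 i.1 ∧ i.2 ∈ S)

theorem markC_card_le {N : ℕ} (S : Finset (Sym2 (Fin N))) : (markC S).card ≤ S.card * N ^ 2 := by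
  have h : markC S ⊆ (S ×ˢ (Finset.univ : Finset (Fin N × Fin N))).image
      (fun i => (i.1.toFinset ∪ {i.2.1, i.2.2}, i.1)) := by
    rintro ⟨K, e⟩ hi
    simp only [markC, Finset.mem_filter, Finset.mem_univ, true_and] at hi
    obtain ⟨hK, he, heS⟩ := hi
    obtain ⟨x, hx, y, hy, hxy, rfl⟩ := (mem_pairsOf K K e).1 he
    have h2 : ((K.erase x).erase y).card = 2 := by
      rw [Finset.card_erase_of_mem (Finset.mem_erase.2 ⟨hxy.symm, hy⟩),
        Finset.card_erase_of_mem hx, hK]
    obtain ⟨z, w, hzw, hzw2⟩ := Finset.card_eq_two.1 h2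
    rw [Finset.mem_image]
    refine ⟨(s(x, y), (z, w)), ?_, ?_⟩
    · rw [Finset.mem_product]
      exact ⟨heS, Finset.mem_univ _⟩
    · have h3 : (s(x, y)).toFinset ∪ {z, w} = K := by
        rw [← hzw2]
        ext a
        simp only [Finset.mem_union, Sym2.mem_toFinset, Sym2.mem_iff, Finset.mem_erase]
        constructor
        · rintro ((rfl | rfl) | ⟨_, _, h⟩)
          · exact hx
          · exact hy
          · exact h
        · intro ha
          by_cases h1 : a = x
          · exact Or.inl (Or.inl h1)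
          by_cases h2 : a = y
          · exact Or.inl (Or.inr h2)
          exact Or.inr ⟨h2, h1, ha⟩
      exact Prod.ext h3 rfl
  refine (Finset.card_le_card h).trans (Finset.card_image_le.trans ?_)
  rw [Finset.card_product, Finset.card_univ, Fintype.card_prod, Fintype.card_fin, sq]

/-- the allowed colours -/
def markW {N Q : ℕ} (q : ℕ) (i : Finset (Fin N) × Sym2 (Fin N)) (e : Sym2 (Fin N)) :
    Finset (Fin Q) :=
  if e = i.2 then Finset.univ.filter fun c => c.val < 1 else Finset.univ.filter fun c => c.val < q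

theorem card_lt_filter {Q q : ℕ} (hq : q ≤ Q) :
    (Finset.univ.filter fun c : Fin Q => c.val < q).card = q := by
  have h := Fin.card_filter_val_lt (n := Q) (m := q)
  rw [h, min_eq_right hq]

/-- RT-A5. Edge-disjoint `4`-cliques (of colour `< q`) with a pair of colour `0` in `S`. -/
theorem mark_bound {N Q : ℕ} (hQ : 0 < Q) (q : ℕ) (hq1 : 1 ≤ q) (hq : q ≤ Q)
    (S : Finset (Sym2 (Fin N))) (T : ℕ) (hT : 0 < T) :
    ({f : Sym2 (Fin N) → Fin Q | ∃ D : Finset (Finset (Fin N)),
        D.card = T ∧ EdgeDisj D ∧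
        ∀ K ∈ D, (colGraph f q).IsNClique 4 K ∧
          ∃ e ∈ pairsOf K K, e ∈ S ∧ (f e).val < 1}.ncard : ℝ)
      ≤ (Real.exp 1 * ((S.card : ℝ) * (N : ℝ) ^ 2) * (1 / (Q : ℝ) * ((q : ℝ) / Q) ^ 5) / T) ^ T *
        (Q : ℝ) ^ Fintype.card (Sym2 (Fin N)) := by
  have hQR : (0 : ℝ) < Q := by exact_mod_cast hQ
  have hp0 : (0 : ℝ) ≤ 1 / (Q : ℝ) * ((q : ℝ) / Q) ^ 5 := by positivity
  have key := disj_occ hQ (fun i : Finset (Fin N) × Sym2 (Fin N) => pairsOf i.1 i.1)
    (fun i e => markW (Q := Q) q i e) (markC S) (1 / (Q : ℝ) * ((q : ℝ) / Q) ^ 5) hp0 ?_ T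
  · have hsub : ({f : Sym2 (Fin N) → Fin Q | ∃ D : Finset (Finset (Fin N)),
        D.card = T ∧ EdgeDisj D ∧
        ∀ K ∈ D, (colGraph f q).IsNClique 4 K ∧
          ∃ e ∈ pairsOf K K, e ∈ S ∧ (f e).val < 1}) ⊆
        {f : Sym2 (Fin N) → Fin Q | ∃ D ⊆ markC S, D.card = T ∧
        (∀ i ∈ D, ∀ j ∈ D, i ≠ j → Disjoint (pairsOf i.1 i.1) (pairsOf j.1 j.1)) ∧
        ∀ i ∈ D, ∀ e ∈ pairsOf i.1 i.1, f e ∈ markW (Q := Q) q i e} := by
      rintro f ⟨D, hD, hdisj, hK⟩
      have hch : ∀ K : Finset (Fin N), ∃ e : Sym2 (Fin N), K ∈ D →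
          e ∈ pairsOf K K ∧ e ∈ S ∧ (f e).val < 1 := by
        intro K
        by_cases h : K ∈ D
        · obtain ⟨e, he⟩ := (hK K h).2
          exact ⟨e, fun _ => he⟩
        · by_cases hne : Nonempty (Sym2 (Fin N))
          · obtain ⟨e⟩ := hne
            exact ⟨e, fun h' => absurd h' h⟩
          · exfalso
            apply hne
            have hD0 : 0 < D.card := by omega
            obtain ⟨K', hK'⟩ := Finset.card_pos.1 hD0
            obtain ⟨e, _⟩ := (hK K' hK').2
            exact ⟨e⟩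
      choose g hg using hch
      refine ⟨D.image fun K => (K, g K), ?_, ?_, ?_, ?_⟩
      · intro i hi
        rw [Finset.mem_image] at hi
        obtain ⟨K, hKD, rfl⟩ := hi
        simp only [markC, Finset.mem_filter, Finset.mem_univ, true_and]
        exact ⟨(hK K hKD).1.card_eq, (hg K hKD).1, (hg K hKD).2.1⟩
      · rw [Finset.card_image_of_injective _ (fun a b h => (Prod.mk.inj h).1)]
        exact hD
      · intro i hi j hj hij
        rw [Finset.mem_image] at hi hj
        obtain ⟨K, hKD, rfl⟩ := hi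
        obtain ⟨K', hKD', rfl⟩ := hj
        refine hdisj K hKD K' hKD' ?_
        rintro rfl
        exact hij rfl
      · intro i hi e he
        rw [Finset.mem_image] at hi
        obtain ⟨K, hKD, rfl⟩ := hi
        simp only [markW]
        split_ifs with h
        · rw [h, Finset.mem_filter]
          exact ⟨Finset.mem_univ _, (hg K hKD).2.2⟩
        · rw [Finset.mem_filter]
          refine ⟨Finset.mem_univ _, ?_⟩
          obtain ⟨x, hx, y, hy, hxy, rfl⟩ := (mem_pairsOf K K e).1 he
          have h1 := (hK K hKD).1.isClique hx hy hxy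
          exact h1.2
    have h1 : ({f : Sym2 (Fin N) → Fin Q | ∃ D : Finset (Finset (Fin N)),
        D.card = T ∧ EdgeDisj D ∧
        ∀ K ∈ D, (colGraph f q).IsNClique 4 K ∧
          ∃ e ∈ pairsOf K K, e ∈ S ∧ (f e).val < 1}.ncard : ℝ) ≤ _ :=
      Nat.cast_le.2 (Set.ncard_le_ncard hsub (Set.toFinite _))
    refine h1.trans (key.trans ?_)
    refine mul_le_mul_of_nonneg_right ?_ (by positivity)
    refine (choose_mul_pow_le _ T hT _ hp0).trans ?_
    refine pow_le_pow_left₀ (by positivity) ?_ T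
    refine div_le_div_of_nonneg_right ?_ (by positivity)
    refine mul_le_mul_of_nonneg_right ?_ hp0
    refine mul_le_mul_of_nonneg_left ?_ (Real.exp_pos 1).le
    have h2 := markC_card_le S
    exact_mod_cast h2
  · rintro ⟨K, e⟩ hi
    simp only [markC, Finset.mem_filter, Finset.mem_univ, true_and] at hi
    obtain ⟨hK, he, -⟩ := hi
    have h1 : ∀ e' : Sym2 (Fin N), (((markW (Q := Q) q (K, e) e').card : ℝ) / Q) =
        if e' = e then 1 / (Q : ℝ) else (q : ℝ) / Q := by
      intro e'
      simp only [markW]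
      split_ifs
      · rw [card_lt_filter (Nat.one_le_iff_ne_zero.2 hQ.ne')]
        simp
      · rw [card_lt_filter hq]
    rw [Finset.prod_congr rfl fun e' _ => h1 e', ← Finset.mul_prod_erase _ _ he]
    rw [if_pos rfl]
    rw [Finset.prod_congr rfl (g := fun _ => (q : ℝ) / Q)
      (fun e' he' => if_neg (Finset.ne_of_mem_erase he')), Finset.prod_const,
      Finset.card_erase_of_mem he, pairsOf_self_card, hK]
    exact le_of_eq rfl

end Pool.Agent.Helper73.RT
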